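import Pool.Agent.LRY.Stmts
import Pool.Agent.Helper98_LRN.FFX

/-!
# Squad LRY, row USY: the upper bound (helper9)
-/

set_option autoImplicit false

open Polynomial NumberField
open Pool.Agent.Helper85_Leo (LeopoldtAt)
open Pool.Agent.LRG Pool.Agent.LRN
open Pool.Agent.LRY Pool.Agent.LRG.E

namespace Pool.Agent.LRY.H9

/-- A field of `SizeFlds` of index at most 2 over `E` is `E` or in `Over E X`. -/
theorem cover (hR : RsfStmt) {r₁ r₂ : ℕ} {X : ℝ} {E K : IntermediateField ℚ ℂ}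
    (hK : K ∈ SizeFlds r₁ r₂ X) (hle : E ≤ K)
    (hf : Module.finrank ℚ K ≤ 2 * Module.finrank ℚ E) :
    K = E ∨ (Module.finrank ℚ E = (r₁ + 2 * r₂) / 2 ∧ K ∈ Over E X) := by
  obtain ⟨hNF, h1, h2, hE, u, hu, hb⟩ := hK
  have hn : r₁ + 2 * r₂ = Module.finrank ℚ K := by
    rw [← h1, ← h2]
    exact InfinitePlace.card_add_two_mul_card_eq_rank K
  have hpos : 0 < Module.finrank ℚ K := Module.finrank_pos
  obtain ⟨E', f, -, hdeg, hmem⟩ := hR E K hle
  have hd0 : Module.finrank E' K ≠ 0 := by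
    intro h0
    rw [h0, mul_zero] at hdeg
    omega
  have hd : Module.finrank E' K ≤ 2 := by
    by_contra h3
    have h4 : Module.finrank ℚ E * 3 ≤ Module.finrank ℚ E * Module.finrank E' K :=
      Nat.mul_le_mul_left _ (by omega)
    omega
  have hcase : Module.finrank E' K = 1 ∨ Module.finrank E' K = 2 := by omega
  rcases hcase with hd1 | hd2
  · left
    rw [hd1, mul_one] at hdeg
    exact (IntermediateField.eq_of_le_of_finrank_eq hle hdeg).symm
  · right
    rw [hd2] at hdeg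
    refine ⟨by omega, hle, hNF, by omega, ?_⟩
    by_contra hcon
    have hall : ∀ i, ((u i : 𝓞 K) : K) ∈ E' := by
      intro i
      rw [hmem]
      by_contra hni
      exact hcon ⟨u i, hni, hb i⟩
    have htop := Pool.Agent.LRN.H98.adjoin_top hE u hu
    have hEt : E' = ⊤ := by
      rw [eq_top_iff, ← htop, IntermediateField.adjoin_le_iff]
      rintro _ ⟨i, rfl⟩
      exact hall i
    rw [hEt, IntermediateField.finrank_top] at hd2
    omega

theorem usy : UsyStmt := by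
  classical
  intro hQ hR r₁ r₂ ε hε
  obtain ⟨C, hC, hQ1⟩ := hQ ((r₁ + 2 * r₂) / 2) ε hε
  refine ⟨C + 1, ?_⟩
  intro X hX S T hS hT hcov
  obtain ⟨F, hF⟩ : ∃ F : Finset (IntermediateField ℚ ℂ),
    F = hS.toFinset.filter fun E : IntermediateField ℚ ℂ =>
      Module.finrank ℚ E = (r₁ + 2 * r₂) / 2 := ⟨_, rfl⟩
  have hFm : ∀ E ∈ F, Module.finrank ℚ E = (r₁ + 2 * r₂) / 2 := by
    intro E hE
    rw [hF, Finset.mem_filter] at hE
    exact hE.2
  have hFc : F.card ≤ S.ncard := by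
    rw [hF, Set.ncard_eq_toFinset_card S hS]
    exact Finset.card_filter_le _ _
  have hfin : (⋃ E ∈ F, Over E X).Finite :=
    Set.Finite.biUnion F.finite_toSet fun E hE => (hQ1 E (hFm E hE) X hX).1
  have hsub : T ⊆ S ∪ ⋃ E ∈ F, Over E X := by
    intro K hK
    obtain ⟨E, hES, hle, hf⟩ := hcov K hK
    rcases cover hR (hT hK) hle hf with h | ⟨h1, h2⟩
    · left
      rw [h]
      exact hES
    · right
      refine Set.mem_biUnion (x := E) ?_ h2
      rw [hF]
      exact Finset.mem_filter.2 ⟨hS.mem_toFinset.2 hES, h1⟩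
  have hXp : 0 < X := lt_of_lt_of_le one_pos hX
  have h1 : (T.ncard : ℝ) ≤ S.ncard + ∑ E ∈ F, ((Over E X).ncard : ℝ) := by
    have h2 : T.ncard ≤ S.ncard + ∑ E ∈ F, (Over E X).ncard :=
      (Set.ncard_le_ncard hsub (hS.union hfin)).trans ((Set.ncard_union_le _ _).trans
        (Nat.add_le_add_left (Finset.set_ncard_biUnion_le _ _) _))
    exact_mod_cast h2
  have hexp : ((((r₁ + 2 * r₂) / 2 : ℕ) : ℝ) + ε) ≤ ((r₁ : ℝ) + 2 * r₂) / 2 + ε := by
    have h2 : (((r₁ + 2 * r₂) / 2 : ℕ) : ℝ) ≤ (((r₁ + 2 * r₂ : ℕ) : ℝ)) / (2 : ℕ) :=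
      Nat.cast_div_le
    push_cast at h2
    linarith
  have h3 : ∑ E ∈ F, ((Over E X).ncard : ℝ) ≤
      S.ncard * (C * X ^ (((r₁ : ℝ) + 2 * r₂) / 2 + ε)) := by
    have h4 : ∀ E ∈ F, ((Over E X).ncard : ℝ) ≤ C * X ^ (((r₁ : ℝ) + 2 * r₂) / 2 + ε) := by
      intro E hE
      exact (hQ1 E (hFm E hE) X hX).2.trans
        (mul_le_mul_of_nonneg_left (Real.rpow_le_rpow_of_exponent_le hX hexp) hC)
    refine (Finset.sum_le_card_nsmul F _ _ h4).trans ?_
    rw [nsmul_eq_mul]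
    exact mul_le_mul_of_nonneg_right (by exact_mod_cast hFc)
      (mul_nonneg hC (Real.rpow_nonneg hXp.le _))
  have h5 : (1 : ℝ) ≤ X ^ (((r₁ : ℝ) + 2 * r₂) / 2 + ε) :=
    Real.one_le_rpow hX (by positivity)
  have h6 : (0 : ℝ) ≤ S.ncard := Nat.cast_nonneg _
  nlinarith [mul_le_mul_of_nonneg_left h5 h6]

end Pool.Agent.LRY.H9
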